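import Mathlib
import Pool.Agent.H848R3.PG.Open

set_option autoImplicit false

open Filter Topology Set
open scoped InnerProductSpace
open Pool.Agent.H848R3

namespace Pool.Agent.Results.MP_e5770a_an.SpectralBoundEqGrowthBound

universe u v

/-- `P` is a closed, normal, generating cone in the real Hilbert space `H`. -/
structure IsOrderCone {H : Type u} [NormedAddCommGroup H] [InnerProductSpace ℝ H] (P : Set H) :
    Prop where
  closed : IsClosed P
  add : ∀ x ∈ P, ∀ y ∈ P, x + y ∈ P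
  smul : ∀ r : ℝ, 0 ≤ r → ∀ x ∈ P, r • x ∈ P
  normal : ∃ c : ℝ, 0 < c ∧ ∀ x ∈ P, ∀ y, y - x ∈ P → ‖x‖ ≤ c * ‖y‖
  generating : ∀ z, ∃ x ∈ P, ∃ y ∈ P, z = x - y

/-- The complex Hilbert space `E` is, through `ι`, the complexification `H ⊕ iH` of `H`. -/
structure IsComplexification {H : Type u} {E : Type v} [NormedAddCommGroup H]
    [InnerProductSpace ℝ H] [NormedAddCommGroup E] [InnerProductSpace ℂ E] (ι : H →ₗ[ℝ] E) :
    Prop where
  inner : ∀ x y : H, ⟪ι x, ι y⟫_ℂ = ((⟪x, y⟫_ℝ : ℝ) : ℂ)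
  decomp : ∀ z : E, ∃ x y : H, z = ι x + Complex.I • ι y

section

variable {E : Type v} [NormedAddCommGroup E] [NormedSpace ℂ E]

/-- `(T_t)_{t ≥ 0}` is a strongly continuous semigroup. -/
structure IsC0Semigroup (T : ℝ → E →L[ℂ] E) : Prop where
  zero : T 0 = ContinuousLinearMap.id ℂ E
  add : ∀ s t, 0 ≤ s → 0 ≤ t → T (s + t) = (T s).comp (T t)
  continuous : ∀ x, ContinuousOn (fun t => T t x) (Ici 0)

/-- `(T_t)_{t ∈ ℝ}` is a strongly continuous group. -/
structure IsC0Group (T : ℝ → E →L[ℂ] E) : Prop where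
  zero : T 0 = ContinuousLinearMap.id ℂ E
  add : ∀ s t, T (s + t) = (T s).comp (T t)
  continuous : ∀ x, Continuous fun t => T t x

/-- `A` is the generator: `x` is in its domain and `A x = y` if and only if
`(T_t x - x) / t → y` as `t → 0+`. -/
def IsGenerator (T : ℝ → E →L[ℂ] E) (A : E →ₗ.[ℂ] E) : Prop :=
  ∀ x y : E, (∃ h : x ∈ A.domain, A ⟨x, h⟩ = y) ↔
    Tendsto (fun t : ℝ => ((t : ℂ))⁻¹ • (T t x - x)) (𝓝[>] 0) (𝓝 y)

/-- The spectrum of an operator: the `z` for which `z - A` has no bounded everywhere defined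
inverse. -/
def spectrumOf (A : E →ₗ.[ℂ] E) : Set ℂ :=
  {z | ¬ ∃ R : E →L[ℂ] E, (∀ x : E, ∃ h : R x ∈ A.domain, z • R x - A ⟨R x, h⟩ = x) ∧
    ∀ x : A.domain, R (z • (x : E) - A x) = x}

/-- The spectral bound `s(A)`, an extended real number. -/
noncomputable def spectralBound (A : E →ₗ.[ℂ] E) : EReal := ⨆ z ∈ spectrumOf A, ((z.re : ℝ) : EReal)

/-- The growth bound `ω_0`, an extended real number: the infimum of the `ω` such that
`‖T_t‖ ≤ M e^{ω t}` for some `M` and all `t ≥ 0`. -/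
noncomputable def growthBound (T : ℝ → E →L[ℂ] E) : EReal :=
  ⨅ (ω : ℝ) (_ : ∃ M : ℝ, ∀ t, 0 ≤ t → ‖T t‖ ≤ M * Real.exp (ω * t)), ((ω : ℝ) : EReal)

end

section proof

theorem spectrum_eq {E : Type v} [NormedAddCommGroup E] [NormedSpace ℂ E] {T : ℝ → E →L[ℂ] E}
    {A : E →ₗ.[ℂ] E} (hA : IsGenerator T A) : spectrumOf A = PG.spec T := by
  ext z
  simp only [spectrumOf, PG.spec, Set.mem_ofPred_eq]
  refine not_congr (exists_congr fun R => ?_)
  constructor
  · rintro ⟨h1, h2⟩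
    refine ⟨fun x => ?_, fun x y hxy => ?_⟩
    · obtain ⟨h, h3⟩ := h1 x
      refine (hA _ _).1 ⟨h, ?_⟩
      rw [sub_eq_iff_eq_add] at h3
      exact eq_sub_iff_add_eq'.2 h3.symm
    · obtain ⟨h, h3⟩ := (hA _ _).2 hxy
      have h4 := h2 ⟨x, h⟩
      rw [h3] at h4
      exact h4
  · rintro ⟨h1, h2⟩
    refine ⟨fun x => ?_, fun x => ?_⟩
    · obtain ⟨h, h3⟩ := (hA _ _).2 (h1 x)
      refine ⟨h, ?_⟩
      rw [h3]; abel
    · exact h2 _ _ ((hA _ _).1 ⟨x.2, rfl⟩)

theorem ordCone {H : Type u} {E : Type v} [NormedAddCommGroup H] [InnerProductSpace ℝ H]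
    [CompleteSpace H] [NormedAddCommGroup E] [InnerProductSpace ℂ E] {ι : H →ₗ[ℝ] E}
    (hι : IsComplexification ι) {P : Set H} (hP : IsOrderCone P) :
    (∀ x, ‖ι x‖ = ‖x‖) ∧ PG.OrdCone (ι '' P) := by
  have hnorm : ∀ x, ‖ι x‖ = ‖x‖ := fun x => by
    have h2 : ‖ι x‖ ^ 2 = ‖x‖ ^ 2 := by
      rw [norm_sq_eq_re_inner (𝕜 := ℂ) (ι x), hι.inner, real_inner_self_eq_norm_sq]
      exact Complex.ofReal_re _
    exact (sq_eq_sq₀ (norm_nonneg _) (norm_nonneg _)).1 h2
  have hiso : Isometry ι := AddMonoidHomClass.isometry_of_norm ι hnorm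
  refine ⟨hnorm, ?_, ?_, ?_, ?_, ?_⟩
  · exact hiso.isClosedEmbedding.isClosedMap _ hP.closed
  · rintro _ ⟨x, hx, rfl⟩ _ ⟨y, hy, rfl⟩
    exact ⟨x + y, hP.add x hx y hy, map_add _ _ _⟩
  · rintro r hr _ ⟨x, hx, rfl⟩
    refine ⟨r • x, hP.smul r hr x hx, ?_⟩
    rw [map_smul, Complex.coe_smul]
  · obtain ⟨c, hc0, hc⟩ := hP.normal
    refine ⟨c, hc0.le, ?_⟩
    rintro _ ⟨x, hx, rfl⟩ y ⟨z, hz, hzy⟩
    have hy : y = ι (x + z) := by rw [map_add, hzy]; abel
    rw [hy, hnorm, hnorm]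
    exact hc x hx (x + z) (by rw [add_sub_cancel_left]; exact hz)
  · intro z
    obtain ⟨x, y, rfl⟩ := hι.decomp z
    obtain ⟨a, ha, b, hb, rfl⟩ := hP.generating x
    obtain ⟨c, hc, d, hd, rfl⟩ := hP.generating y
    exact ⟨_, ⟨a, ha, rfl⟩, _, ⟨b, hb, rfl⟩, _, ⟨c, hc, rfl⟩, _, ⟨d, hd, rfl⟩, by
      rw [map_sub, map_sub]⟩

end proof

/-- The equality `s(A) = ω_0` for strongly continuous semigroups of positive operators on an ordered
Hilbert space; for groups both are finite, `s(A)` is in the spectrum, and `ω_0` is the limit of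
`log ‖T_t‖ / t`. -/
theorem result (H : Type u) (E : Type v) [NormedAddCommGroup H] [InnerProductSpace ℝ H]
    [CompleteSpace H] [NormedAddCommGroup E] [InnerProductSpace ℂ E] [CompleteSpace E]
    (ι : H →ₗ[ℝ] E) (hι : IsComplexification ι) (P : Set H) (hP : IsOrderCone P)
    (T : ℝ → E →L[ℂ] E) (hpos : ∀ t, 0 ≤ t → ∀ x ∈ P, ∃ y ∈ P, T t (ι x) = ι y)
    (A : E →ₗ.[ℂ] E) (hA : IsGenerator T A) :
    (IsC0Semigroup T → spectralBound A = growthBound T) ∧
    (IsC0Group T → Nontrivial H → ∃ s : ℝ, spectralBound A = s ∧ growthBound T = s ∧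
      (s : ℂ) ∈ spectrumOf A ∧ IsLUB (Complex.re '' spectrumOf A) s ∧
      Tendsto (fun t : ℝ => Real.log ‖T t‖ / t) atTop (𝓝 s)) := by
  obtain ⟨hnorm, hC⟩ := ordCone hι hP
  have hpos' : ∀ t, 0 ≤ t → PG.Pos (ι '' P) (T t) := by
    rintro t ht _ ⟨x, hx, rfl⟩
    obtain ⟨y, hy, h⟩ := hpos t ht x hx
    exact ⟨y, hy, h.symm⟩
  have hspec := spectrum_eq hA
  -- the case of semigroups
  have hsemi : IsC0Semigroup T → spectralBound A = growthBound T ∧
      ∀ b : ℝ, (∀ l : ℝ, b ≤ l → (l : ℂ) ∉ spectrumOf A) →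
        ∃ M : ℝ, ∀ t, 0 ≤ t → ‖T t‖ ≤ M * Real.exp (b * t) := by
    intro hT0
    have hT : PG.IsC0Semigroup T := ⟨hT0.zero, hT0.add, hT0.continuous⟩
    have hgr : ∀ b : ℝ, (∀ l : ℝ, b ≤ l → (l : ℂ) ∉ spectrumOf A) →
        ∃ M : ℝ, ∀ t, 0 ≤ t → ‖T t‖ ≤ M * Real.exp (b * t) := by
      intro b hb
      refine PG.growth hC hT hpos' b fun l hl => ?_
      have h1 := hb l hl
      rw [hspec] at h1
      simpa only [PG.spec, Set.mem_ofPred_eq, not_not] using h1
    refine ⟨le_antisymm ?_ ?_, hgr⟩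
    · refine iSup₂_le fun z hz => le_iInf₂ fun ω hω => ?_
      obtain ⟨M, hM⟩ := hω
      by_contra hcon
      have h1 : ω < z.re := by
        have := not_le.1 hcon
        exact_mod_cast this
      rw [hspec] at hz
      exact hz (PG.exists_res hT hM h1)
    · by_contra hcon
      obtain ⟨b, hb1, hb2⟩ := EReal.lt_iff_exists_real_btwn.1 (not_le.1 hcon)
      refine absurd (iInf₂_le b (hgr b fun l hl hmem => ?_)) (not_le.2 hb2)
      have h1 : ((l : ℝ) : EReal) ≤ spectralBound A := by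
        unfold spectralBound
        exact le_iSup₂_of_le (l : ℂ) hmem (by rw [Complex.ofReal_re])
      have h2 := lt_of_le_of_lt h1 hb1
      have h3 : l < b := by exact_mod_cast h2
      linarith
  refine ⟨fun h => (hsemi h).1, fun hG hnt => ?_⟩
  have hT0 : IsC0Semigroup T := ⟨hG.zero, fun s t _ _ => hG.add s t, fun x =>
    (hG.continuous x).continuousOn⟩
  have hT : PG.IsC0Semigroup T := ⟨hT0.zero, hT0.add, hT0.continuous⟩
  obtain ⟨heq, hgr⟩ := hsemi hT0
  let 𝓐 : Set ℝ := {ω | ∃ M : ℝ, ∀ t, 0 ≤ t → ‖T t‖ ≤ M * Real.exp (ω * t)}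
  have hAne : 𝓐.Nonempty := by
    obtain ⟨M, ω, h⟩ := PG.exists_growth hT
    exact ⟨ω, M, h⟩
  -- `E` is nontrivial
  obtain ⟨v, hv⟩ := exists_ne (0 : H)
  have hιv : 0 < ‖ι v‖ := by rw [hnorm]; exact norm_pos_iff.2 hv
  -- the backward semigroup
  have hTb : PG.IsC0Semigroup fun t => T (-t) := ⟨by rw [neg_zero]; exact hG.zero, fun s t _ _ => by
    rw [neg_add]; exact hG.add _ _, fun x => ((hG.continuous x).comp continuous_neg).continuousOn⟩
  obtain ⟨M', ω', hM'⟩ := PG.exists_growth hTb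
  have hinv : ∀ t x, T (-t) (T t x) = x := fun t x => by
    have h1 := hG.add (-t) t
    rw [neg_add_cancel, hG.zero] at h1
    have h2 := congrArg (fun Q : E →L[ℂ] E => Q x) h1
    exact h2.symm
  have hAbdd : BddBelow 𝓐 := by
    refine ⟨-ω', ?_⟩
    rintro ω ⟨M, hM⟩
    by_contra hcon
    push Not at hcon
    -- `1 ≤ M' M exp((ω + ω') t)` for all `t ≥ 0`
    have h1 : ∀ t : ℝ, 0 ≤ t → ‖ι v‖ ≤ (M' * M * ‖ι v‖) * Real.exp ((ω + ω') * t) := by
      intro t ht
      have h2 : ‖T (-t)‖ ≤ M' * Real.exp (ω' * t) := hM' t ht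
      have h3 := hM t ht
      calc ‖ι v‖ = ‖T (-t) (T t (ι v))‖ := by rw [hinv]
        _ ≤ ‖T (-t)‖ * (‖T t‖ * ‖ι v‖) := ((T (-t)).le_opNorm _).trans
            (mul_le_mul_of_nonneg_left ((T t).le_opNorm _) (norm_nonneg _))
        _ ≤ (M' * Real.exp (ω' * t)) * ((M * Real.exp (ω * t)) * ‖ι v‖) :=
            mul_le_mul h2 (mul_le_mul_of_nonneg_right h3 (norm_nonneg _)) (by positivity)
              ((norm_nonneg _).trans h2)
        _ = (M' * M * ‖ι v‖) * (Real.exp (ω' * t) * Real.exp (ω * t)) := by ring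
        _ = _ := by rw [← Real.exp_add]; congr 2; ring
    have h4 : Tendsto (fun t : ℝ => (M' * M * ‖ι v‖) * Real.exp ((ω + ω') * t)) atTop (𝓝 0) := by
      have h5 : Tendsto (fun t : ℝ => Real.exp ((ω + ω') * t)) atTop (𝓝 0) := by
        refine Real.tendsto_exp_atBot.comp ?_
        exact (tendsto_const_mul_atBot_of_neg (by linarith)).2 tendsto_id
      simpa using h5.const_mul (M' * M * ‖ι v‖)
    have h6 : ‖ι v‖ ≤ 0 := by
      refine ge_of_tendsto h4 ?_
      filter_upwards [eventually_ge_atTop 0] with t ht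
      exact h1 t ht
    linarith
  set s : ℝ := sInf 𝓐 with hs
  have hup : ∀ b, s < b → b ∈ 𝓐 := by
    intro b hb
    obtain ⟨ω, ⟨M, hM⟩, hω⟩ := exists_lt_of_csInf_lt hAne hb
    refine ⟨|M|, fun t ht => (hM t ht).trans ?_⟩
    refine mul_le_mul (le_abs_self _) (Real.exp_le_exp.2 ?_) (Real.exp_pos _).le (abs_nonneg _)
    exact mul_le_mul_of_nonneg_right hω.le ht
  have hlo : ∀ b, b < s → b ∉ 𝓐 := fun b hb hmem => not_le.2 hb (csInf_le hAbdd hmem)
  have hgb : growthBound T = s := by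
    refine le_antisymm ?_ (le_iInf₂ fun ω hω => by exact_mod_cast csInf_le hAbdd hω)
    by_contra hcon
    obtain ⟨b, hb1, hb2⟩ := EReal.lt_iff_exists_real_btwn.1 (not_le.1 hcon)
    have h1 : s < b := by exact_mod_cast hb1
    exact absurd (iInf₂_le b (hup b h1)) (not_le.2 hb2)
  -- all real points right of `s` are in the resolvent set
  have hright : ∀ z ∈ spectrumOf A, z.re ≤ s := by
    intro z hz
    by_contra hcon
    push Not at hcon
    obtain ⟨b, hb1, hb2⟩ := exists_between hcon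
    obtain ⟨M, hM⟩ := hup b hb1
    rw [hspec] at hz
    exact hz (PG.exists_res hT hM hb2)
  have hmem : (s : ℂ) ∈ spectrumOf A := by
    by_contra hcon
    have h1 := hcon
    rw [hspec] at h1
    simp only [PG.spec, Set.mem_ofPred_eq, not_not] at h1
    obtain ⟨R, hR⟩ := h1
    set ε : ℝ := 1 / (2 * (‖R‖ + 1)) with hε
    have hε0 : 0 < ε := by positivity
    have h2 : ∀ l : ℝ, s - ε ≤ l → (l : ℂ) ∉ spectrumOf A := by
      intro l hl hmem
      have h3 := hright _ hmem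
      rw [Complex.ofReal_re] at h3
      rw [hspec] at hmem
      refine hmem (PG.res_open hR ?_)
      rw [← Complex.ofReal_sub, Complex.norm_real, Real.norm_eq_abs, abs_of_nonneg (by linarith)]
      have h4 : (s - l) * ‖R‖ ≤ ε * ‖R‖ := mul_le_mul_of_nonneg_right (by linarith) (norm_nonneg _)
      have h5 : ε * ‖R‖ < 1 := by
        rw [hε, one_div, inv_mul_lt_iff₀ (by positivity)]
        linarith [norm_nonneg R]
      linarith
    exact hlo (s - ε) (by linarith) (hgr _ h2)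
  have hne : ∀ t, 0 ≤ t → T t ≠ 0 := by
    intro t _ h0
    have h1 := hinv t (ι v)
    rw [h0] at h1
    simp only [_root_.zero_apply, map_zero] at h1
    rw [← h1, norm_zero] at hιv
    exact lt_irrefl _ hιv
  refine ⟨s, by rw [heq, hgb], hgb, hmem, ⟨?_, fun u hu => ?_⟩, PG.log_tendsto hT hne hup hlo⟩
  · rintro _ ⟨z, hz, rfl⟩
    exact hright z hz
  · exact hu ⟨(s : ℂ), hmem, Complex.ofReal_re s⟩

end Pool.Agent.Results.MP_e5770a_an.SpectralBoundEqGrowthBound
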